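import Mathlib

namespace Pool.Agent.Results.MP_2ce53a_nt.Necessary

/-- The `m`-gonal number with argument `x`. -/
def P (m x : ℤ) : ℤ := ((m - 2) * x ^ 2 - (m - 4) * x) / 2

/-- The generalized pentagonal number with argument `z`. -/
def G (z : ℤ) : ℤ := (3 * z ^ 2 - z) / 2

/-- `(j, k)` is universal. -/
def Universal (j k : ℕ) : Prop :=
  ∀ n : ℕ, ∃ (z : ℤ) (x y : ℕ), (n : ℤ) = G z + P j x + P k y

/-- The list `L` of the problem. -/
def InL (j k : ℕ) : Prop :=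
  (j = 3 ∧ ((3 ≤ k ∧ k ≤ 20) ∨ k ∈ [22, 24, 25, 28, 29, 30, 32, 37])) ∨
  (j = 4 ∧ ((4 ≤ k ∧ k ≤ 13) ∨ (20 ≤ k ∧ k ≤ 25) ∨ k ∈ [15, 16, 18, 27, 28, 31, 33, 34])) ∨
  (j = 5 ∧ ((6 ≤ k ∧ k ≤ 12) ∨ k = 20)) ∨
  (j = 6 ∧ k ∈ [7, 8, 9, 10]) ∨
  (j, k) ∈ [(7, 9), (7, 11), (8, 10), (9, 11)]

instance (j k : ℕ) : Decidable (InL j k) := by unfold InL; infer_instance

def Pn (m x : ℕ) : ℕ := x + (m - 2) * (x * (x - 1) / 2)

def gm : ℕ := 503820955872033225512917442082403523244891274809777037933829758534104254082990268775967544800956882298634596516342294679425761064412958518849654036611305071316420931262552858854711403566664316768259396886513171656378330703183187151277351564432706291068312978755751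

def chk (j k n : ℕ) : Bool :=
  (List.range 44).all fun x => decide (n < Pn j x) ||
    (List.range 44).all fun y => decide (n < Pn j x + Pn k y) ||
      !(gm.testBit (n - Pn j x - Pn k y))

def tab : List (List ℕ) :=
  [[0, 0, 0, 0, 0, 0, 0, 0, 0, 0, 0, 0, 0, 0, 0, 0, 0, 0, 0, 0, 0, 490, 0, 65, 0, 0, 65, 109, 0, 0, 0, 65, 0, 75, 65, 199, 75, 0, 439, 923, 109, 65, 286, 839, 75, 109, 65, 227, 134, 252, 109, 65, 134, 150, 273, 273, 65, 0, 285, 134, 109, 75, 571, 319, 150, 109, 65, 65, 65, 65, 65],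
   [0, 0, 0, 0, 0, 0, 0, 0, 0, 0, 0, 0, 0, 0, 34, 0, 0, 46, 0, 243, 0, 0, 0, 0, 0, 0, 46, 0, 0, 234, 414, 0, 399, 0, 0, 34, 34, 34, 34, 34, 34, 34, 34, 34, 34, 34, 34, 34, 34, 34, 34, 34, 34, 34, 34, 34, 34, 34, 34, 34, 34, 34, 34, 34, 34, 34, 34, 34, 34, 34, 34],
   [0, 0, 0, 0, 0, 33, 0, 0, 0, 0, 0, 0, 0, 68, 60, 33, 84, 81, 154, 65, 0, 81, 33, 55, 33, 55, 65, 55, 60, 33, 55, 154, 60, 65, 33, 33, 33, 33, 33, 33, 33, 33, 33, 33, 33, 33, 33, 33, 33, 33, 33, 33, 33, 33, 33, 33, 33, 33, 33, 33, 33, 33, 33, 33, 33, 33, 33, 33, 33, 33, 33],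
   [0, 0, 0, 0, 0, 0, 10, 0, 0, 0, 0, 10, 10, 10, 10, 10, 10, 10, 10, 10, 10, 10, 10, 10, 10, 10, 10, 10, 10, 10, 10, 10, 10, 10, 10, 10, 10, 10, 10, 10, 10, 10, 10, 10, 10, 10, 10, 10, 10, 10, 10, 10, 10, 10, 10, 10, 10, 10, 10, 10, 10, 10, 10, 10, 10, 10, 10, 10, 10, 10, 10],
   [0, 0, 0, 0, 0, 0, 0, 11, 32, 0, 38, 0, 11, 11, 11, 11, 11, 11, 11, 11, 11, 11, 11, 11, 11, 11, 11, 11, 11, 11, 11, 11, 11, 11, 11, 11, 11, 11, 11, 11, 11, 11, 11, 11, 11, 11, 11, 11, 11, 11, 11, 11, 11, 11, 11, 11, 11, 11, 11, 11, 11, 11, 11, 11, 11, 11, 11, 11, 11, 11, 11],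
   [0, 0, 0, 0, 0, 0, 0, 0, 19, 38, 0, 25, 50, 32, 18, 19, 69, 361, 32, 18, 18, 18, 18, 18, 18, 18, 18, 18, 18, 18, 18, 18, 18, 18, 18, 18, 18, 18, 18, 18, 18, 18, 18, 18, 18, 18, 18, 18, 18, 18, 18, 18, 18, 18, 18, 18, 18, 18, 18, 18, 18, 18, 18, 18, 18, 18, 18, 18, 18, 18, 18],
   [0, 0, 0, 0, 0, 0, 0, 0, 0, 43, 158, 0, 96, 33, 18, 19, 20, 34, 38, 18, 18, 18, 18, 18, 18, 18, 18, 18, 18, 18, 18, 18, 18, 18, 18, 18, 18, 18, 18, 18, 18, 18, 18, 18, 18, 18, 18, 18, 18, 18, 18, 18, 18, 18, 18, 18, 18, 18, 18, 18, 18, 18, 18, 18, 18, 18, 18, 18, 18, 18, 18],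
   [0, 0, 0, 0, 0, 0, 0, 0, 0, 0, 19, 20, 21, 31, 38, 19, 20, 21, 38, 38, 19, 19, 19, 19, 19, 19, 19, 19, 19, 19, 19, 19, 19, 19, 19, 19, 19, 19, 19, 19, 19, 19, 19, 19, 19, 19, 19, 19, 19, 19, 19, 19, 19, 19, 19, 19, 19, 19, 19, 19, 19, 19, 19, 19, 19, 19, 19, 19, 19, 19, 19]]

def w (j k : ℕ) : ℕ := (tab.getD (j - 3) []).getD k 0

lemma hP (m x : ℕ) (hm : 3 ≤ m) : P m x = (Pn m x : ℤ) := by
  obtain ⟨m, rfl⟩ : ∃ t, m = t + 2 := ⟨m - 2, by omega⟩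
  have h := Nat.mul_div_cancel' (Nat.even_mul_pred_self x).two_dvd
  unfold P Pn
  rw [Nat.add_sub_cancel]
  generalize x * (x - 1) / 2 = t at h
  have h2 : (2 * t : ℤ) = x ^ 2 - x := by
    rcases x with _ | x
    · simp at h ⊢
      omega
    · rw [Nat.add_sub_cancel] at h
      have : ((2 * t : ℕ) : ℤ) = ((x + 1) * x : ℕ) := by rw [h]
      push_cast at this ⊢
      linarith
  have : (((m + 2 : ℕ) : ℤ) - 2) * (x : ℤ) ^ 2 - (((m + 2 : ℕ) : ℤ) - 4) * x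
      = 2 * ((x + m * t : ℕ) : ℤ) := by
    push_cast
    linear_combination (-(m : ℤ)) * h2
  rw [this]
  omega

lemma hG (z : ℤ) : 0 ≤ G z ∧ (G z ≤ 923 → gm.testBit (G z).toNat = true) := by
  have h0 : 0 ≤ 3 * z ^ 2 - z := by nlinarith [sq_nonneg z, sq_nonneg (z - 1)]
  refine ⟨by unfold G; omega, fun h => ?_⟩
  have h1 : 3 * z ^ 2 - z ≤ 1847 := by unfold G at h; omega
  have h2 : -25 ≤ z := by nlinarith
  have h3 : z ≤ 25 := by nlinarith
  revert h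
  interval_cases z <;> decide +kernel

lemma hx (m x n : ℕ) (hm : 3 ≤ m) (hn : n ≤ 923) (h : Pn m x ≤ n) : x < 44 := by
  by_contra hc
  have h1 : 44 * 43 ≤ x * (x - 1) := Nat.mul_le_mul (by omega) (by omega)
  have h2 : 1 * (x * (x - 1) / 2) ≤ (m - 2) * (x * (x - 1) / 2) :=
    Nat.mul_le_mul (by omega) le_rfl
  unfold Pn at h
  omega

lemma big (m m' x n : ℕ) (hm : n < m) (h : Pn m x ≤ n) : Pn m x = Pn m' x := by
  have : x ≤ 1 := by
    by_contra hc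
    have h1 : 2 * 1 ≤ x * (x - 1) := Nat.mul_le_mul (by omega) (by omega)
    have h2 : (m - 2) * 1 ≤ (m - 2) * (x * (x - 1) / 2) :=
      Nat.mul_le_mul le_rfl (by omega)
    unfold Pn at h
    omega
  interval_cases x <;> simp [Pn]

def Rep (j k n : ℕ) : Prop :=
  ∃ x y : ℕ, Pn j x + Pn k y ≤ n ∧ gm.testBit (n - Pn j x - Pn k y) = true

lemma rep_of (j k : ℕ) (hj : 3 ≤ j) (hk : 3 ≤ k) (h : Universal j k) (n : ℕ) (hn : n ≤ 923) :
    Rep j k n := by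
  obtain ⟨z, x, y, h⟩ := h n
  rw [hP j x hj, hP k y hk] at h
  obtain ⟨h0, h1⟩ := hG z
  refine ⟨x, y, by omega, ?_⟩
  rw [show n - Pn j x - Pn k y = (G z).toNat by omega]
  exact h1 (by omega)

lemma not_rep (j k n : ℕ) (hj : 3 ≤ j) (hk : 3 ≤ k) (hn : n ≤ 923) (h : chk j k n = true) :
    ¬ Rep j k n := by
  rintro ⟨x, y, h1, h2⟩
  have h3 := hx j x n hj hn (by omega)
  have h4 := hx k y n hk hn (by omega)
  simp only [chk, List.all_eq_true, List.mem_range, Bool.or_eq_true, decide_eq_true_eq] at h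
  rcases h x h3 with h | h
  · omega
  · rcases h y h4 with h | h
    · omega
    · simp [h2] at h

def ok (j k : ℕ) : Bool :=
  decide (j < 3) || decide (k < j) || decide (InL j k) || decide (j = 3 ∧ k = 57) ||
    (decide (w j k ≤ 923) && (decide (k ≠ 70) || decide (w j k < 70)) && chk j k (w j k))

lemma main0 : ∀ j < 11, ∀ k < 71, ok j k = true := by
  decide +kernel

lemma main : ∀ j < 11, ∀ k < 71, 3 ≤ j → j ≤ k → InL j k ∨ (j = 3 ∧ k = 57) ∨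
    (w j k ≤ 923 ∧ (k = 70 → w j k < 70) ∧ chk j k (w j k) = true) := by
  intro j hj k hk h3 hjk
  have h := main0 j hj k hk
  simp only [ok, Bool.or_eq_true, Bool.and_eq_true, decide_eq_true_eq] at h
  rcases h with (((h | h) | h) | h) | ⟨⟨h1, h2⟩, h4⟩
  · omega
  · omega
  · exact Or.inl h
  · exact Or.inr (Or.inl h)
  · exact Or.inr (Or.inr ⟨h1, fun h70 => h2.resolve_left (fun h => h h70), h4⟩)

theorem result : ∀ j k : ℕ, 3 ≤ j → j ≤ k → Universal j k → InL j k ∨ (j = 3 ∧ k = 57) := by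
  intro j k hj hjk h
  by_cases h11 : j < 11
  · by_cases h70 : k < 71
    · rcases main j h11 k h70 hj hjk with h1 | h1 | ⟨h1, -, h2⟩
      · exact Or.inl h1
      · exact Or.inr h1
      · exact (not_rep j k _ hj (by omega) h1 h2 (rep_of j k hj (by omega) h _ h1)).elim
    · exfalso
      rcases main j h11 70 (by omega) hj (by omega) with h1 | h1 | ⟨h1, h3, h2⟩
      · revert h1
        interval_cases j <;> decide
      · omega
      · have h4 := h3 rfl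
        obtain ⟨x, y, a, b⟩ := rep_of j k hj (by omega) h _ h1
        have e := big k 70 y (w j 70) (by omega) (by omega)
        rw [e] at a b
        exact not_rep j 70 _ hj (by omega) h1 h2 ⟨x, y, a, b⟩
  · exfalso
    obtain ⟨x, y, a, b⟩ := rep_of j k hj (by omega) h 10 (by omega)
    have e1 := big k 11 y 10 (by omega) (by omega)
    have e2 := big j 11 x 10 (by omega) (by omega)
    rw [e1, e2] at a b
    exact not_rep 11 11 10 (by omega) (by omega) (by omega) (by decide +kernel) ⟨x, y, a, b⟩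

end Pool.Agent.Results.MP_2ce53a_nt.Necessary
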